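import Pool.Agent.H86.CommG

set_option autoImplicit false
open Filter Topology

namespace Pool.Agent.Results.MP_e69049_lc.FlatIff

/-- The relative commutant of the bounded operators on the complex normed space `H` in their
ultrapower along `U` is trivial: every bounded sequence of operators which asymptotically commutes
along `U` with every operator is asymptotically a scalar multiple of the identity along `U`. -/
def TrivialCommutant (H : Type) [NormedAddCommGroup H] [NormedSpace ℂ H] (U : Ultrafilter ℕ) :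
    Prop :=
  ∀ a : ℕ → (H →L[ℂ] H), (∃ C : ℝ, ∀ n, ‖a n‖ ≤ C) →
    (∀ b : H →L[ℂ] H, Tendsto (fun n => ‖a n * b - b * a n‖) (U : Filter ℕ) (𝓝 0)) →
    ∃ c : ℂ, Tendsto (fun n => ‖a n - c • (1 : H →L[ℂ] H)‖) (U : Filter ℕ) (𝓝 0)

/-- The Hilbert space `ℓ²(ℕ, ℂ)`. -/
noncomputable abbrev L2 := lp (fun _ : ℕ => ℂ) 2

/-- Flat ultrafilters: there are functions `h n` from the natural numbers to `[0, 1]` with
`h n 0 = 1` and limit `0` at infinity, which vary slowly along `U` with respect to every strictly
increasing function `f`. -/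
def IsFlat (U : Ultrafilter ℕ) : Prop :=
  ∃ h : ℕ → ℕ → ℝ, (∀ n j, 0 ≤ h n j ∧ h n j ≤ 1) ∧ (∀ n, h n 0 = 1) ∧
    (∀ n, Tendsto (h n) atTop (𝓝 0)) ∧
    ∀ f : ℕ → ℕ, StrictMono f →
      Tendsto (fun n => ⨆ j, |h n j - h n (f j)|) (U : Filter ℕ) (𝓝 0)

/-- P-points. -/
def IsPPoint (U : Ultrafilter ℕ) : Prop :=
  ∀ A : ℕ → Set ℕ, (∀ k, A k ∈ U) → ∃ B ∈ U, ∀ k, (B \ A k).Finite

/-- Sequences of natural numbers tending to infinity along `U` (the infinite elements of the
ultrapower of the natural numbers by `U`). -/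
abbrev Unb (U : Ultrafilter ℕ) : Type := {x : ℕ → ℕ // Tendsto x (U : Filter ℕ) atTop}

/-- Two infinite elements lie in the same sky if each is bounded by a standard function of the
other. -/
def skySetoid (U : Ultrafilter ℕ) : Setoid (Unb U) where
  r x y := ∃ f : ℕ → ℕ, (∀ᶠ n in (U : Filter ℕ), x.1 n ≤ f (y.1 n)) ∧
    (∀ᶠ n in (U : Filter ℕ), y.1 n ≤ f (x.1 n))
  iseqv := (Pool.Agent.H86.Comm.skySetoid U).iseqv

/-- The skies of `U`. -/
def Skies (U : Ultrafilter ℕ) : Type := Quotient (skySetoid U)

/-- The relative commutant of the bounded operators on the separable Hilbert space is trivial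
exactly for the nonflat ultrafilters; it is trivial for every ultrafilter with fewer than continuum
many skies, and for every P-point. -/
theorem result :
    ∀ U : Ultrafilter ℕ, (U : Filter ℕ) ≤ Filter.cofinite →
      (TrivialCommutant L2 U ↔ ¬ IsFlat U) ∧
      (Cardinal.mk (Skies U) < Cardinal.continuum → TrivialCommutant L2 U) ∧
      (IsPPoint U → TrivialCommutant L2 U) :=
  fun U _ => Pool.Agent.H86.Comm.main U

end Pool.Agent.Results.MP_e69049_lc.FlatIff
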