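import Pool.Agent.H79.SV.Final

/-!
# It is consistent with ZFC that no free ultrafilter has a trivial relative commutant

There is a model `(M, E)` of ZFC in which every free ultrafilter on `ω` is flat (`SV.AllFlat E`). The second
part of the theorem says that the first-order sentence used here, read in the real world (the structure
`(ZFSet, ∈)`), is equivalent to the statement: for every free ultrafilter on `ℕ` the relative commutant of
the bounded operators on `ℓ²` in their ultrapower is not trivial (this is the frozen statement S15542).

The model is a Boolean-valued model (library of helper26) of the countable support product of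
more than `2 ^ 𝔠` Silver forcings, divided by an ultrafilter; the ground model is arbitrary.
-/

set_option autoImplicit false

open Filter Topology

namespace Pool.Agent.Results.MP_e69049_lc.NoTrivialCommutant

/-- The relative commutant of the bounded operators on the complex normed space `H` in their
ultrapower along `U` is trivial: every bounded sequence of operators which asymptotically commutes
along `U` with every operator is asymptotically a scalar multiple of the identity along `U`. -/
def TrivialCommutant (H : Type) [NormedAddCommGroup H] [NormedSpace ℂ H] (U : Ultrafilter ℕ) :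
    Prop :=
  ∀ a : ℕ → (H →L[ℂ] H), (∃ C : ℝ, ∀ n, ‖a n‖ ≤ C) →
    (∀ b : H →L[ℂ] H, Tendsto (fun n => ‖a n * b - b * a n‖) (U : Filter ℕ) (𝓝 0)) →
    ∃ c : ℂ, Tendsto (fun n => ‖a n - c • (1 : H →L[ℂ] H)‖) (U : Filter ℕ) (𝓝 0)

/-- The Hilbert space `ℓ²(ℕ, ℂ)`. -/
noncomputable abbrev L2 := lp (fun _ : ℕ => ℂ) 2

/-- There is a model of ZFC in which every free ultrafilter on `ω` is flat; and this sentence, read
in the real world, says that the relative commutant of the bounded operators on `ℓ²` in their
ultrapower is not trivial, for all free ultrafilters. -/
theorem result :
    (∃ (M : Type 1) (E : M → M → Prop), BV.IsZFC E ∧ SV.AllFlat E) ∧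
    (SV.AllFlat (fun x y : ZFSet.{0} => x ∈ y) ↔
      ∀ U : Ultrafilter ℕ, (U : Filter ℕ) ≤ cofinite → ¬ TrivialCommutant L2 U) :=
  ⟨SV.exists_model, SV.allFlat_iff⟩

end Pool.Agent.Results.MP_e69049_lc.NoTrivialCommutant
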